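import Mathlib
import Pool.Agent.H.MP_a2c283_pr.Low

set_option autoImplicit false
open Finset Filter

namespace Pool.Agent.Results.MP_a2c283_pr.StarClique

section
variable {V : Type} [Fintype V] [DecidableEq V] (G : SimpleGraph V) [DecidableRel G.Adj]

/-- one-step transition probability of the simple random walk -/
noncomputable def step (u y : V) : ℝ := if G.Adj u y then 1 / G.degree u else 0

/-- probability that the walk started at `p 0` follows the path `p` for `t` steps -/
noncomputable def wt {t : ℕ} (p : Fin (t + 1) → V) : ℝ :=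
  ∏ s : Fin t, step G (p s.castSucc) (p s.succ)

/-- probability that the walk from `u` has not visited `v` at times `0, …, t` -/
noncomputable def notHit (u v : V) (t : ℕ) : ℝ :=
  ∑ p : Fin (t + 1) → V, if p 0 = u ∧ ∀ s, p s ≠ v then wt G p else 0

/-- probability that `k` independent walks from `u 1, …, u k` have not covered `V` by time `t` -/
noncomputable def notCov {k : ℕ} (u : Fin k → V) (t : ℕ) : ℝ :=
  ∑ p : Fin k → Fin (t + 1) → V,
    if (∀ i, p i 0 = u i) ∧ ∃ v, ∀ i s, p i s ≠ v then ∏ i, wt G (p i) else 0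

/-- maximal expected hitting time, `E τ = ∑ P(τ > t)` -/
noncomputable def hmax : ℝ := ⨆ x : V × V, ∑' t, notHit G x.1 x.2 t

/-- expected cover time of the `k` walks -/
noncomputable def cov {k : ℕ} (u : Fin k → V) : ℝ := ∑' t, notCov G u t

/-- worst-case expected cover time of a single walk -/
noncomputable def cover : ℝ := ⨆ u : V, cov G fun _ : Fin 1 => u

open H.MP_a2c283_pr

theorem e1 (u v : V) : notHit G u v = miss (tp G) u {v} := by
  funext t
  simp only [notHit, miss, mem_singleton, exists_eq_left]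
  rfl

theorem e2 {k : ℕ} (u : Fin k → V) : notCov G u = missK (tp G) u := rfl

theorem e3 (u : V) : notCov G (fun _ : Fin 1 => u) = miss (tp G) u univ := by
  funext t
  rw [notCov, miss, ← (Equiv.funUnique (Fin 1) _).symm.sum_comp]
  simp only [mem_univ, true_and, Equiv.funUnique_symm_apply, uniqueElim_const, forall_const,
    Fin.prod_const, pow_one]
  rfl

end

open H.MP_a2c283_pr

theorem result (α c H0 : ℝ) (hα : 0 < α) (hc : 0 < c) :
    ∃ (V : Type) (_ : Fintype V) (_ : DecidableEq V) (G : SimpleGraph V) (_ : DecidableRel G.Adj),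
      G.Connected ∧ (∀ u v, Summable (notHit G u v)) ∧
      (∀ u, Summable (notCov G fun _ : Fin 1 => u)) ∧ 0 < hmax G ∧ H0 ≤ cover G / hmax G ∧
      ∃ (k : ℕ) (u : Fin k → V), 1 ≤ k ∧ (k : ℝ) ≤ Real.exp (α * (cover G / hmax G)) ∧
        Summable (notCov G u) ∧ c * k * cov G u < cover G := by
  obtain ⟨p, hp⟩ : ∃ p : ℕ, 3 / α ≤ p := exists_nat_ge _
  have hp1 : 1 ≤ p := by
    have : (0 : ℝ) < p := (by positivity : (0 : ℝ) < 3 / α).trans_le hp
    exact_mod_cast this
  have t1 := (tendsto_pow_const_mul_const_pow_of_abs_lt_one (p + 1) (r := 2 / 3)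
    (by rw [abs_of_pos] <;> norm_num)).eventually (ge_mem_nhds (show 0 < 1 / (18 * c) by positivity))
  have t2 := (Real.tendsto_log_atTop.comp tendsto_natCast_atTop_atTop).eventually_ge_atTop
    (max (3 * H0) 1)
  obtain ⟨k', a1, a2, a3⟩ := (t1.and (t2.and (eventually_ge_atTop 3))).exists
  obtain ⟨k, rfl⟩ : ∃ k, k' = k + 2 + 1 := ⟨k' - 3, by omega⟩
  simp only [Function.comp, max_le_iff] at a1 a2
  obtain ⟨κ, hκ⟩ : ∃ κ : ℝ, κ = ((k + 2 + 1 : ℕ) : ℝ) := ⟨_, rfl⟩
  rw [← hκ] at a1 a2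
  have κ1 : 1 ≤ κ := by rw [hκ]; exact_mod_cast (by omega)
  obtain ⟨m, hm⟩ : ∃ m : ℕ, m = (k + 2 + 1) ^ p := ⟨_, rfl⟩
  have hm' : (m : ℝ) = κ ^ p := by rw [hm, hκ]; push_cast; rfl
  obtain ⟨K, hK⟩ : ∃ K : ℕ, 4 * c * κ + 1 ≤ K := exists_nat_ge _
  obtain ⟨q, hq⟩ : ∃ q : ℕ, 96 * c * κ * K + (4 * m + 5) ≤ q := exists_nat_ge _
  have K1 : (1 : ℝ) ≤ K := by nlinarith [mul_pos hc (zero_lt_one.trans_le κ1)]
  have q1 : (4 * m + 5 : ℝ) ≤ q := by nlinarith [(by positivity : 0 < 96 * c * κ * K)]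
  have m0 : (0 : ℝ) ≤ m := Nat.cast_nonneg m
  obtain ⟨n, hn⟩ : ∃ n : ℕ, n = K * q := ⟨_, rfl⟩
  have hn' : (n : ℝ) = K * q := by rw [hn]; push_cast; rfl
  have n1 : (4 * m + 5 : ℝ) ≤ n := by rw [hn']; nlinarith
  have n2 : 4 * m + 5 ≤ n := by exact_mod_cast n1
  have q2 : 1 ≤ q := by exact_mod_cast (show (1 : ℝ) ≤ q by linarith)
  have n0 : (0 : ℝ) < n := by linarith
  have hL : p * Real.log κ ≤ Real.log (m + 1) := by
    rw [← Real.log_pow, ← hm']
    exact Real.log_le_log (by rw [hm']; positivity) (by linarith)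
  have hL1 : Real.log κ ≤ Real.log (m + 1) :=
    le_trans (le_mul_of_one_le_left (by linarith) (by exact_mod_cast hp1)) hL
  have h3 := hit3 (m := m) (n := n) (by omega)
  have s1 : ∀ u v, Summable (notHit (GG m n) u v) := fun u v => by
    rw [e1]; exact summable_of_sum_range_le (miss_nonneg tp0 _ _) (h3 u v)
  have s2 : ∀ u, Summable (notCov (GG m n) fun _ : Fin 1 => u) := fun u => by
    rw [e3]
    exact Summable.of_nonneg_of_le (miss_nonneg tp0 _ _) (miss_union tp0 _ _)
      (summable_sum fun v _ => by rw [← e1]; exact s1 u v)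
  have b1 : hmax (GG m n) ≤ 3 * n ^ 2 := ciSup_le fun x => by
    rw [e1]; exact Real.tsum_le_of_sum_range_le (miss_nonneg tp0 _ _) (h3 _ _)
  have b2 : 0 < hmax (GG m n) := by
    refine lt_of_lt_of_le ?_ (le_ciSup (Set.finite_range _).bddAbove (.inl none, .inr none))
    refine (s1 _ _).tsum_pos (by rw [e1]; exact miss_nonneg tp0 _ _) 0 ?_
    rw [e1, miss_zero]; simp
  have b3 : n ^ 2 * Real.log (m + 1) ≤ cover (GG m n) := by
    refine le_trans ?_ (le_ciSup (Set.finite_range _).bddAbove (.inl none))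
    rw [cov, e3]
    exact low (by omega) (by rw [← e3]; exact s2 _)
  have b4 : Real.log (m + 1) / 3 ≤ cover (GG m n) / hmax (GG m n) := by
    rw [div_le_div_iff₀ (by norm_num) b2]
    nlinarith [mul_le_mul_of_nonneg_left b1 (show 0 ≤ Real.log (m + 1) by linarith)]
  have hu := up (m := m) (n := n) q k n2 q2
  refine ⟨VV m n, inferInstance, inferInstance, GG m n, inferInstance, conn, s1, s2, b2,
    by linarith, k + 2 + 1, fun _ => .inl none, by omega, ?_,
    summable_of_sum_range_le (missK_nonneg tp0 _) hu, ?_⟩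
  · rw [← hκ, ← Real.exp_log (zero_lt_one.trans_le κ1), Real.exp_le_exp]
    rw [div_le_iff₀ hα] at hp
    nlinarith [mul_le_mul_of_nonneg_left b4 hα.le, mul_le_mul_of_nonneg_left hL hα.le,
      mul_le_mul_of_nonneg_right hp (show 0 ≤ Real.log κ by linarith)]
  · have b5 := Real.tsum_le_of_sum_range_le (missK_nonneg tp0 _) hu
    rw [← hκ, cov, e2]
    have ck : 0 < c * κ := by positivity
    refine (mul_le_mul_of_nonneg_left b5 ck.le).trans_lt (lt_of_lt_of_le ?_ b3)
    have q0 : (0 : ℝ) < q := by linarith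
    have c1 : c * κ * (n * q) ≤ n ^ 2 / 4 := by
      have : n * q * (4 * c * κ) ≤ n * q * (K : ℝ) := by gcongr; linarith
      have e : (n : ℝ) ^ 2 = n * q * K := by rw [sq]; nth_rewrite 2 [hn']; ring
      linarith
    have c2 : c * κ * (3 * (m * (2 / 3) ^ (k + 2))) ≤ 1 / 4 := by
      rw [le_div_iff₀ (by positivity), pow_succ, pow_succ (2 / 3 : ℝ), ← hm'] at a1
      linarith
    have c3 : c * κ * (3 * ((n + 1) * (2 / q) ^ 2)) ≤ 1 / 4 := by
      rw [div_pow, ← mul_div_assoc, ← mul_div_assoc, ← mul_div_assoc, div_le_iff₀ (by positivity)]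
      have : (n : ℝ) + 1 ≤ 2 * (K * q) := by linarith
      have := mul_le_mul_of_nonneg_left this ck.le
      have := mul_le_mul_of_nonneg_left (show 96 * c * κ * K ≤ q by linarith) q0.le
      nlinarith
    have n3 : (0 : ℝ) < n ^ 2 := by positivity
    push_cast
    nlinarith [mul_le_mul_of_nonneg_left c2 n3.le, mul_le_mul_of_nonneg_left c3 n3.le,
      mul_le_mul_of_nonneg_left (a2.2.trans hL1) n3.le]

end Pool.Agent.Results.MP_a2c283_pr.StarClique
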